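import Pool.Agent.H985.Par.StmPar
import Pool.Agent.H985.Chow.Asm

/-!
# Chowla phase 4 (helper985), task PAR (helper225): the sieve with residues, and fibres
-/

set_option autoImplicit false
set_option linter.unusedSectionVars false

open scoped Classical
open Polynomial

namespace Pool.Agent.H225.Par

open Pool.Agent.H985.Chow (mob MD)
open Pool.Agent.H985.KP (mobg)
open Pool.Agent.H985.Par
open Pool.Agent.H694.Typ (Mn mem_Mn card_Mn PU mem_PU sum_deg_le wt)
open Pool.Agent.H985.Chow.Asm (G G_inj G_add G_surj ta tb mem_deg G_mem mem_G card_deg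
  window_finsum sum_MD MD_finite instFD mem_of_natDegree_lt natDegree_lt_of_mem abs_mob)

section residues

variable {K : Type} [Field K] [Fintype K]

/-- the residue classes of the `β i` modulo `P` -/
noncomputable def Om {k : ℕ} (β : Fin k → K[X]) (P : K[X]) : Finset K[X] :=
  Finset.univ.image (fun i => β i %ₘ P)

/-- the local density -/
noncomputable def lf {k : ℕ} (β : Fin k → K[X]) (P : K[X]) : ℝ :=
  1 - ((Om β P).card : ℝ) / (Fintype.card K : ℝ) ^ P.natDegree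

/-- the density -/
noncomputable def vf {k : ℕ} (Ps : Finset K[X]) (β : K[X] → Fin k → K[X]) : ℝ :=
  ∏ P ∈ Ps, lf (β P) P

/-- the sifted set -/
def Sd {k : ℕ} (Ps : Finset K[X]) (β : K[X] → Fin k → K[X]) (x : K[X]) : Prop :=
  ∀ P ∈ Ps, ∀ i, ¬ P ∣ x - β P i

/-- the indicator function of the sifted set -/
noncomputable def ind {k : ℕ} (Ps : Finset K[X]) (β : K[X] → Fin k → K[X]) (x : K[X]) : ℝ :=
  if Sd Ps β x then 1 else 0

lemma ind_nonneg {k : ℕ} (Ps : Finset K[X]) (β : K[X] → Fin k → K[X]) (x : K[X]) :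
    0 ≤ ind Ps β x := by
  unfold ind
  split_ifs <;> norm_num

lemma dvd_sub_mod {P : K[X]} (b x : K[X]) : P ∣ x - b %ₘ P ↔ P ∣ x - b := by
  have h1 : x - b %ₘ P = (x - b) + P * (b /ₘ P) := by
    have h2 := modByMonic_add_div b P
    linear_combination -h2
  rw [h1]
  constructor
  · intro h
    exact (dvd_add_left (dvd_mul_right _ _)).1 h
  · intro h
    exact dvd_add h (dvd_mul_right _ _)

lemma Om_card_le {k : ℕ} (β : Fin k → K[X]) (P : K[X]) : (Om β P).card ≤ k := by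
  refine Finset.card_image_le.trans ?_
  rw [Finset.card_univ, Fintype.card_fin]

lemma Om_degree {k : ℕ} (β : Fin k → K[X]) {P : K[X]} (hP : P.Monic) :
    ∀ r ∈ Om β P, r.degree < P.degree := by
  intro r hr
  unfold Om at hr
  rw [Finset.mem_image] at hr
  obtain ⟨i, -, rfl⟩ := hr
  exact degree_modByMonic_lt _ hP

lemma Om_card_lt {k : ℕ} (β : Fin k → K[X]) {P : K[X]} (hP : P.Monic)
    (h : ∃ r, ∀ i, ¬ P ∣ r - β i) : (Om β P).card < Fintype.card K ^ P.natDegree := by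
  obtain ⟨r, hr⟩ := h
  have hmem : ∀ y : K[X], y %ₘ P ∈ (Finset.univ : Finset (degreeLT K P.natDegree)).image
      (fun u : degreeLT K P.natDegree => (u : K[X])) := by
    intro y
    rw [Finset.mem_image]
    refine ⟨⟨y %ₘ P, ?_⟩, Finset.mem_univ _, rfl⟩
    rw [mem_degreeLT]
    have h1 := degree_modByMonic_lt y hP
    rwa [degree_eq_natDegree hP.ne_zero] at h1
  rw [← card_deg (K := K) P.natDegree, ← Finset.card_univ,
    ← Finset.card_image_of_injective (Finset.univ : Finset (degreeLT K P.natDegree))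
      (f := fun u : degreeLT K P.natDegree => (u : K[X])) Subtype.coe_injective]
  apply Finset.card_lt_card
  rw [Finset.ssubset_iff_of_subset]
  · refine ⟨r %ₘ P, hmem r, ?_⟩
    intro h1
    unfold Om at h1
    rw [Finset.mem_image] at h1
    obtain ⟨i, -, hi⟩ := h1
    apply hr i
    rw [← dvd_sub_mod, hi, dvd_sub_mod, sub_self]
    exact dvd_zero _
  · intro y hy
    unfold Om at hy
    rw [Finset.mem_image] at hy
    obtain ⟨i, -, rfl⟩ := hy
    exact hmem _

lemma mod_eq_iff {P : K[X]} (hP : P.Monic) (a b : K[X]) : a %ₘ P = b %ₘ P ↔ P ∣ a - b := by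
  rw [← modByMonic_eq_zero_iff_dvd hP, sub_modByMonic, sub_eq_zero]

lemma card_image_le_of {ι : Type} [Fintype ι] (f g : ι → K[X]) (h : ∀ i j, f i = f j → g i = g j) :
    (Finset.univ.image g).card ≤ (Finset.univ.image f).card := by
  have h1 : Finset.univ.image g ⊆ (Finset.univ.image f).image
      (fun y => if hy : ∃ i, f i = y then g hy.choose else 0) := by
    intro y hy
    rw [Finset.mem_image] at hy
    obtain ⟨i, -, rfl⟩ := hy
    rw [Finset.mem_image]
    refine ⟨f i, Finset.mem_image_of_mem f (Finset.mem_univ i), ?_⟩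
    have hy : ∃ j, f j = f i := ⟨i, rfl⟩
    rw [dif_pos hy]
    exact h _ _ hy.choose_spec
  exact (Finset.card_le_card h1).trans Finset.card_image_le

lemma card_Om_eq {k : ℕ} {β γ : Fin k → K[X]} {P : K[X]} (hP : P.Monic)
    (h : ∀ i j, P ∣ β i - β j ↔ P ∣ γ i - γ j) : (Om β P).card = (Om γ P).card := by
  unfold Om
  apply le_antisymm
  · apply card_image_le_of
    intro i j hij
    rw [mod_eq_iff hP] at hij ⊢
    exact (h i j).2 hij
  · apply card_image_le_of
    intro i j hij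
    rw [mod_eq_iff hP] at hij ⊢
    exact (h i j).1 hij

lemma lf_pos {k : ℕ} (β : Fin k → K[X]) {P : K[X]} (hP : P.Monic)
    (h : ∃ r, ∀ i, ¬ P ∣ r - β i) : 0 < lf β P := by
  have h1 := Om_card_lt β hP h
  have h2 : ((Om β P).card : ℝ) < (Fintype.card K : ℝ) ^ P.natDegree := by exact_mod_cast h1
  have h3 : (0 : ℝ) < (Fintype.card K : ℝ) ^ P.natDegree := lt_of_le_of_lt (Nat.cast_nonneg _) h2
  unfold lf
  rw [sub_pos, div_lt_one h3]
  exact h2

lemma lf_le {k : ℕ} (β : Fin k → K[X]) (P : K[X]) : lf β P ≤ 1 := by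
  unfold lf
  have : (0 : ℝ) ≤ ((Om β P).card : ℝ) / (Fintype.card K : ℝ) ^ P.natDegree := by positivity
  linarith

lemma vf_pos {k : ℕ} (Ps : Finset K[X]) (β : K[X] → Fin k → K[X]) (h1 : ∀ P ∈ Ps, P.Monic)
    (h : ∀ P ∈ Ps, ∃ r, ∀ i, ¬ P ∣ r - β P i) : 0 < vf Ps β :=
  Finset.prod_pos fun P hP => lf_pos _ (h1 P hP) (h P hP)

lemma vf_mono {k : ℕ} (Ps Ps' : Finset K[X]) (β : K[X] → Fin k → K[X]) (hsub : Ps' ⊆ Ps)
    (h1 : ∀ P ∈ Ps, P.Monic) (h : ∀ P ∈ Ps, ∃ r, ∀ i, ¬ P ∣ r - β P i) : vf Ps β ≤ vf Ps' β := by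
  unfold vf
  rw [← Finset.prod_sdiff hsub]
  have h2 : ∏ P ∈ Ps \ Ps', lf (β P) P ≤ 1 := by
    apply Finset.prod_le_one
    · intro P hP
      exact (lf_pos _ (h1 P (Finset.mem_sdiff.1 hP).1) (h P (Finset.mem_sdiff.1 hP).1)).le
    · intro P _
      exact lf_le _ _
  have h3 : 0 < ∏ P ∈ Ps', lf (β P) P :=
    vf_pos Ps' β (fun P hP => h1 P (hsub hP)) (fun P hP => h P (hsub hP))
  calc (∏ P ∈ Ps \ Ps', lf (β P) P) * ∏ P ∈ Ps', lf (β P) P ≤ 1 * ∏ P ∈ Ps', lf (β P) P :=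
        mul_le_mul_of_nonneg_right h2 h3.le
    _ = _ := one_mul _

lemma sif_iff {k : ℕ} (Ps : Finset K[X]) (β : K[X] → Fin k → K[X]) (x : K[X]) :
    (∀ P ∈ Ps, ∀ r ∈ Om (β P) P, ¬ P ∣ x - r) ↔ Sd Ps β x := by
  constructor
  · intro h P hP i hi
    apply h P hP (β P i %ₘ P) (Finset.mem_image_of_mem _ (Finset.mem_univ i))
    rw [dvd_sub_mod]
    exact hi
  · intro h P hP r hr hd
    unfold Om at hr
    rw [Finset.mem_image] at hr
    obtain ⟨i, -, rfl⟩ := hr
    rw [dvd_sub_mod] at hd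
    exact h P hP i hd

lemma finsum_filter (L : ℕ) (C : K[X] → Prop) (F : K[X] → ℝ) :
    ∑ᶠ u ∈ {u : K[X] | u.degree < (L : WithBot ℕ) ∧ C u}, F u =
      ∑ u : degreeLT K L, (if C u then F u else 0) := by
  rw [← window_finsum L (fun u => if C u then F u else 0), finsum_mem_def, finsum_mem_def]
  congr 1
  funext u
  by_cases h1 : u.degree < (L : WithBot ℕ)
  · by_cases h2 : C u
    · rw [Set.indicator_of_mem (show u ∈ {u : K[X] | u.degree < (L : WithBot ℕ) ∧ C u} from ⟨h1, h2⟩),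
        Set.indicator_of_mem (show u ∈ {u : K[X] | u.degree < (L : WithBot ℕ)} from h1), if_pos h2]
    · rw [Set.indicator_of_notMem (fun h : u ∈ {u : K[X] | u.degree < (L : WithBot ℕ) ∧ C u} =>
          h2 h.2),
        Set.indicator_of_mem (show u ∈ {u : K[X] | u.degree < (L : WithBot ℕ)} from h1), if_neg h2]
  · rw [Set.indicator_of_notMem (fun h : u ∈ {u : K[X] | u.degree < (L : WithBot ℕ) ∧ C u} =>
          h1 h.1),
        Set.indicator_of_notMem (fun h : u ∈ {u : K[X] | u.degree < (L : WithBot ℕ)} => h1 h)]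

lemma ncard_filter (L : ℕ) (C : K[X] → Prop) :
    (({u : K[X] | u.degree < (L : WithBot ℕ) ∧ C u}.ncard : ℕ) : ℝ) =
      ∑ u : degreeLT K L, (if C u then (1 : ℝ) else 0) := by
  have h : {u : K[X] | u.degree < (L : WithBot ℕ) ∧ C u} =
      (((Finset.univ : Finset (degreeLT K L)).filter (fun u : degreeLT K L => C (u : K[X]))).image
        (fun u : degreeLT K L => (u : K[X])) : Finset K[X]) := by
    ext u
    rw [Finset.mem_coe, Finset.mem_image]
    constructor
    · rintro ⟨h1, h2⟩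
      exact ⟨⟨u, mem_degreeLT.mpr h1⟩, Finset.mem_filter.2 ⟨Finset.mem_univ _, h2⟩, rfl⟩
    · rintro ⟨v, hv, rfl⟩
      rw [Finset.mem_filter] at hv
      exact ⟨mem_degreeLT.mp v.2, hv.2⟩
  rw [h, Set.ncard_coe_finset, Finset.card_image_of_injective _ Subtype.coe_injective,
    Finset.sum_boole]

/-- the sieve for residues given by representatives -/
theorem sw1 (hs : S_sw) (K : Type) [Field K] [Fintype K] (k : ℕ) (ε : ℝ) (hε : 0 < ε) : ∃ A : ℕ,
    ∀ (L m : ℕ) (Ps : Finset K[X]) (β : K[X] → Fin k → K[X]) (M a₀ : K[X]),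
      1 ≤ m → A * m ≤ L →
      (∀ P ∈ Ps, P.Monic ∧ Irreducible P ∧ P.natDegree ≤ m ∧ IsCoprime M P) →
      (∀ P ∈ Ps, ∃ r, ∀ i, ¬ P ∣ r - β P i) →
      (1 - ε) * vf Ps β * (Fintype.card K : ℝ) ^ L ≤ ∑ u : degreeLT K L, ind Ps β (a₀ + M * u) ∧
      ∑ u : degreeLT K L, ind Ps β (a₀ + M * u) ≤ (1 + ε) * vf Ps β * (Fintype.card K : ℝ) ^ L ∧
      ∀ (F : K[X] → ℝ) (B : ℝ), (∀ u, |F u| ≤ 1) → 0 ≤ B →
        (∀ (D r : K[X]) (L' : ℕ), D.Monic → D ∣ ∏ P ∈ Ps, P → D.natDegree + L' = L →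
          D.natDegree ≤ A * m → r.degree < D.degree →
          |∑ᶠ v ∈ {v : K[X] | v.degree < (L' : WithBot ℕ)}, F (r + D * v)| ≤ B) →
        |∑ u : degreeLT K L, ind Ps β (a₀ + M * u) * F u| ≤
          ε * vf Ps β * (Fintype.card K : ℝ) ^ L +
          2 * ((k + 1 : ℝ) * Fintype.card K) ^ (A * m) * B := by
  obtain ⟨A, hA⟩ := hs K k ε hε
  refine ⟨A, ?_⟩
  intro L m Ps β M a₀ hm hAm hPs hr
  have h1 := hA L m Ps (fun P => Om (β P) P) M a₀ hm hAm hPs (fun P hP =>
    ⟨Om_card_le _ _, Om_card_lt _ (hPs P hP).1 (hr P hP), Om_degree _ (hPs P hP).1⟩)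
  simp only [sif_iff] at h1
  obtain ⟨h2, h3, h4⟩ := h1
  rw [ncard_filter] at h2 h3
  refine ⟨h2, h3, ?_⟩
  intro F B hF hB hD
  have h5 := h4 F B hF hB hD
  rw [finsum_filter] at h5
  refine le_trans (le_of_eq ?_) h5
  congr 1
  refine Finset.sum_congr rfl fun u _ => ?_
  unfold ind
  split_ifs
  · rw [one_mul]
  · rw [zero_mul]

end residues

section fibres

variable {K : Type} [Field K] [Fintype K] [CharP K 2]

omit [CharP K 2] in
lemma exists_root [CharP K 2] (P : K[X]) (hP : Irreducible P) : ∃ x : K[X], P ∣ x ^ 2 - X := by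
  have : Fact (Irreducible P) := ⟨hP⟩
  have hmo : Module.Finite K (AdjoinRoot P) :=
    PowerBasis.finite (AdjoinRoot.powerBasis hP.ne_zero)
  have : Finite (AdjoinRoot P) := Module.finite_of_finite K
  have : CharP (AdjoinRoot P) 2 := charP_of_injective_algebraMap
    (algebraMap K (AdjoinRoot P)).injective 2
  have hs : Function.Surjective (frobenius (AdjoinRoot P) 2) :=
    Finite.injective_iff_surjective.mp (frobenius_inj (AdjoinRoot P) 2)
  obtain ⟨y, hy⟩ := hs (AdjoinRoot.mk P X)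
  obtain ⟨x, rfl⟩ := AdjoinRoot.mk_surjective y
  refine ⟨x, ?_⟩
  rw [frobenius_def, ← map_pow] at hy
  exact AdjoinRoot.mk_eq_mk.1 hy

/-- a square root of `X` modulo `P` -/
noncomputable def xr (P : K[X]) : K[X] := if h : ∃ x : K[X], P ∣ x ^ 2 - X then h.choose else 0

lemma xr_spec {P : K[X]} (hP : Irreducible P) : P ∣ xr P ^ 2 - X := by
  have h := exists_root P hP
  unfold xr
  rw [dif_pos h]
  exact h.choose_spec

lemma dvd_G_iff {P : K[X]} (hP : Irreducible P) (a b : K[X]) : P ∣ G a b ↔ P ∣ a + xr P * b := by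
  have h1 : G a b + (xr P ^ 2 - X) * b ^ 2 = (a + xr P * b) ^ 2 := by
    have h2 : (a + xr P * b) ^ 2 = a ^ 2 + (xr P * b) ^ 2 := CharTwo.add_sq _ _
    rw [h2, G]
    ring
  have h2 : P ∣ (xr P ^ 2 - X) * b ^ 2 := Dvd.dvd.mul_right (xr_spec hP) _
  constructor
  · intro h
    have h3 := dvd_add h h2
    rw [h1] at h3
    exact hP.prime.dvd_of_dvd_pow h3
  · intro h
    have h3 : P ∣ (a + xr P * b) ^ 2 := Dvd.dvd.pow h two_ne_zero
    rw [← h1] at h3
    exact (dvd_add_left h2).1 h3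

/-- the residues of a fibre -/
noncomputable def bet {k : ℕ} (s t : Fin k → K[X]) (b P : K[X]) (i : Fin k) : K[X] :=
  s i + xr P * (b + t i)

lemma dvd_bet {k : ℕ} (s t : Fin k → K[X]) {P : K[X]} (hP : Irreducible P) (a b : K[X])
    (i : Fin k) : P ∣ a - bet s t b P i ↔ P ∣ G a b - G (s i) (t i) := by
  have h1 : a - bet s t b P i = (a + s i) + xr P * (b + t i) := by
    rw [CharTwo.sub_eq_add, bet]
    ring
  rw [h1, ← dvd_G_iff hP, G_add, CharTwo.sub_eq_add]

lemma G_sub (a b a' b' : K[X]) : G (a - a') (b - b') = G a b - G a' b' := by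
  rw [CharTwo.sub_eq_add, CharTwo.sub_eq_add, CharTwo.sub_eq_add, G_add]

lemma dvd_bet_sub {k : ℕ} (s t : Fin k → K[X]) {P : K[X]} (hP : Irreducible P) (b : K[X])
    (i j : Fin k) : P ∣ bet s t b P i - bet s t b P j ↔ P ∣ G (s i) (t i) - G (s j) (t j) := by
  have h1 : bet s t b P i - bet s t b P j = (s i - s j) + xr P * (t i - t j) := by
    rw [bet, bet]
    ring
  rw [h1, ← dvd_G_iff hP, G_sub]

lemma lf_bet {k : ℕ} (s t : Fin k → K[X]) {P : K[X]} (hP : Irreducible P) (hm : P.Monic)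
    (b : K[X]) : lf (bet s t b P) P = lf (fun i => G (s i) (t i)) P := by
  unfold lf
  rw [card_Om_eq hm (dvd_bet_sub s t hP b)]

lemma vf_bet {k : ℕ} (s t : Fin k → K[X]) (Ps : Finset K[X])
    (hPs : ∀ P ∈ Ps, P.Monic ∧ Irreducible P) (b : K[X]) :
    vf Ps (bet s t b) = vf Ps (fun _ i => G (s i) (t i)) :=
  Finset.prod_congr rfl fun P hP => lf_bet s t (hPs P hP).2 (hPs P hP).1 b

lemma ind_bet {k : ℕ} (s t : Fin k → K[X]) (Ps : Finset K[X])
    (hPs : ∀ P ∈ Ps, P.Monic ∧ Irreducible P) (a b : K[X]) :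
    ind Ps (fun _ i => G (s i) (t i)) (G a b) = ind Ps (bet s t b) a := by
  unfold ind
  have h : Sd Ps (fun _ i => G (s i) (t i)) (G a b) ↔ Sd Ps (bet s t b) a := by
    constructor
    · intro h P hP i hi
      exact h P hP i ((dvd_bet s t (hPs P hP).2 a b i).1 hi)
    · intro h P hP i hi
      exact h P hP i ((dvd_bet s t (hPs P hP).2 a b i).2 hi)
  by_cases h1 : Sd Ps (bet s t b) a
  · rw [if_pos h1, if_pos (h.2 h1)]
  · rw [if_neg h1, if_neg (fun h2 => h1 (h.1 h2))]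

lemma adm_bet {k : ℕ} (s t : Fin k → K[X]) {P : K[X]} (hP : Irreducible P) 
    (b : K[X]) (h : ∃ r, ∀ i, ¬ P ∣ r - G (s i) (t i)) : ∃ r, ∀ i, ¬ P ∣ r - bet s t b P i := by
  -- the residues are different from all the others
  by_contra hcon
  have h0 : ∀ r, ∃ i, P ∣ r - bet s t b P i := by
    intro r
    by_contra h1
    apply hcon
    refine ⟨r, fun i hi => h1 ⟨i, hi⟩⟩
  obtain ⟨f, hf⟩ := h
  obtain ⟨a, c, rfl⟩ := G_surj f
  obtain ⟨i, hi⟩ := h0 (a + xr P * (c + b))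
  apply hf i
  have h2 : a + xr P * (c + b) - bet s t b P i = (a + s i) + xr P * (c + t i) := by
    rw [CharTwo.sub_eq_add, bet]
    have h3 : (b : K[X]) + b = 0 := CharTwo.add_self_eq_zero b
    linear_combination xr P * h3
  rw [h2, ← dvd_G_iff hP, G_add] at hi
  rw [CharTwo.sub_eq_add]
  exact hi

end fibres

end Pool.Agent.H225.Par
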