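import Pool.Agent.H225.Par.Sieve

/-!
# Chowla phase 4 (helper985), task PAR (helper225): parity in sifted sets
-/

set_option autoImplicit false
set_option linter.unusedSectionVars false

open scoped Classical
open Polynomial

namespace Pool.Agent.H225.Par

open Pool.Agent.H985.Chow (mob MD)
open Pool.Agent.H985.KP (mobg)
open Pool.Agent.H985.Par
open Pool.Agent.H694.Typ (Mn mem_Mn card_Mn PU mem_PU sum_deg_le wt)
open Pool.Agent.H985.Chow.Asm (G G_inj G_add G_surj ta tb mem_deg G_mem mem_G card_deg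
  window_finsum sum_MD MD_finite instFD mem_of_natDegree_lt natDegree_lt_of_mem abs_mob)

section sums

variable {K : Type} [Field K] [Fintype K]

lemma avg2 (N L : ℕ) (E : K[X]) (hE : ∀ u ∈ degreeLT K L, E * u ∈ degreeLT K N)
    (f g : K[X] → ℝ) (η : ℝ)
    (hB : ∀ v ∈ degreeLT K N, |∑ u : degreeLT K L, f (v + E * u)| ≤
      η * ∑ u : degreeLT K L, g (v + E * u)) :
    |∑ v : degreeLT K N, f v| ≤ η * ∑ v : degreeLT K N, g v := by
  have hq : (0 : ℝ) < (Fintype.card K : ℝ) ^ L := pow_pos (by exact_mod_cast Fintype.card_pos) _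
  have h1 : ∀ (h : K[X] → ℝ) (u : degreeLT K L),
      ∑ v : degreeLT K N, h v = ∑ v : degreeLT K N, h (v + E * u) := by
    intro h u
    refine (Fintype.sum_equiv (Equiv.addRight (⟨E * u, hE u u.2⟩ : degreeLT K N))
      (fun v => h (v + E * u)) (fun v => h v) (fun v => ?_)).symm
    rfl
  have h2 : ∀ h : K[X] → ℝ, (Fintype.card K : ℝ) ^ L * ∑ v : degreeLT K N, h v =
      ∑ v : degreeLT K N, ∑ u : degreeLT K L, h (v + E * u) := by
    intro h
    rw [Finset.sum_comm, ← Finset.sum_congr rfl (fun u _ => h1 h u), Finset.sum_const,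
      Finset.card_univ, card_deg, nsmul_eq_mul]
    push_cast
    rfl
  have h3 : (Fintype.card K : ℝ) ^ L * |∑ v : degreeLT K N, f v| ≤
      (Fintype.card K : ℝ) ^ L * (η * ∑ v : degreeLT K N, g v) := by
    rw [← abs_of_pos hq, ← abs_mul, abs_of_pos hq, h2, mul_left_comm, h2, Finset.mul_sum]
    refine (Finset.abs_sum_le_sum_abs _ _).trans ?_
    exact Finset.sum_le_sum (fun (v : degreeLT K N) _ => hB v v.2)
  exact le_of_mul_le_mul_left h3 hq

lemma sum_Mn (n : ℕ) (h : K[X] → ℝ) : ∑ f ∈ Mn K n, h f = ∑ᶠ f ∈ MD K n, h f := by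
  have h1 : MD K n = ((Mn K n : Finset K[X]) : Set K[X]) := by
    ext f
    rw [Finset.mem_coe, mem_Mn]
    rfl
  rw [h1, finsum_mem_coe_finset]

lemma sum_Mn' (n : ℕ) (h : K[X] → ℝ) :
    ∑ f ∈ Mn K n, h f = ∑ u : degreeLT K n, h (X ^ n + 1 * (u : K[X])) := by
  have h1 : Mn K n = (Finset.univ : Finset (degreeLT K n)).image
      (fun u : degreeLT K n => X ^ n + 1 * (u : K[X])) := by
    ext f
    rw [mem_Mn, Finset.mem_image]
    constructor
    · rintro ⟨h1, h2⟩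
      refine ⟨⟨f - X ^ n, ?_⟩, Finset.mem_univ _, ?_⟩
      · rw [mem_deg]
        intro i hi
        rw [coeff_sub, coeff_X_pow]
        split_ifs with h3
        · rw [h3, ← h2, Monic.coeff_natDegree h1, sub_self]
        · rw [coeff_eq_zero_of_natDegree_lt (by omega), sub_zero]
      · show X ^ n + 1 * (f - X ^ n) = f
        ring
    · rintro ⟨u, -, rfl⟩
      rw [one_mul]
      have h2 : (u : K[X]).degree < (n : WithBot ℕ) := mem_degreeLT.mp u.2
      refine ⟨monic_X_pow_add h2, ?_⟩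
      have h3 := degree_add_eq_left_of_degree_lt (p := (X ^ n : K[X])) (q := (u : K[X]))
        (by rw [degree_X_pow]; exact h2)
      rw [natDegree_eq_of_degree_eq h3, natDegree_X_pow]
  rw [h1, Finset.sum_image]
  intro u _ u' _ huu
  apply Subtype.ext
  have h2 : X ^ n + 1 * (u : K[X]) = X ^ n + 1 * (u' : K[X]) := huu
  rw [one_mul, one_mul] at h2
  exact add_left_cancel h2

lemma Sft_iff [CharP K 2] {k : ℕ} (α : Fin k → K[X]) (m : ℕ) (f : K[X]) :
    (∀ i, Sft m (f + α i)) ↔ Sd (PU K m) (fun _ => α) f := by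
  constructor
  · intro h P hP i hi
    rw [mem_PU] at hP
    rw [CharTwo.sub_eq_add] at hi
    have := h i P hP.1 hP.2.1 hi
    omega
  · intro h i P h1 h2 h3
    by_contra h4
    apply h P (mem_PU.2 ⟨h1, h2, by omega⟩) i
    rw [CharTwo.sub_eq_add]
    exact h3

lemma sum_Sfs [CharP K 2] {k : ℕ} (α : Fin k → K[X]) (n m : ℕ) (T : K[X] → ℝ) :
    ∑ f ∈ Sfs K α n m, T f = ∑ f ∈ Mn K n, ind (PU K m) (fun _ => α) f * T f := by
  unfold Sfs
  rw [Finset.sum_filter]
  refine Finset.sum_congr rfl fun f _ => ?_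
  unfold ind
  by_cases h : Sd (PU K m) (fun _ => α) f
  · rw [if_pos h, if_pos ((Sft_iff α m f).2 h), one_mul]
  · rw [if_neg h, if_neg (fun h2 => h ((Sft_iff α m f).1 h2)), zero_mul]

lemma card_Sfs [CharP K 2] {k : ℕ} (α : Fin k → K[X]) (n m : ℕ) :
    ((Sfs K α n m).card : ℝ) = ∑ f ∈ Mn K n, ind (PU K m) (fun _ => α) f := by
  have h := sum_Sfs α n m (fun _ => 1)
  rw [Finset.sum_const, nsmul_eq_mul, mul_one] at h
  rw [h]
  exact Finset.sum_congr rfl fun f _ => mul_one _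

lemma adm_big {k : ℕ} (α : Fin k → K[X]) {P : K[X]} (hP : P.Monic)
    (h : k < Fintype.card K ^ P.natDegree) : ∃ r, ∀ i, ¬ P ∣ r + α i := by
  by_contra hcon
  have h0 : ∀ r, ∃ i, P ∣ r + α i := by
    intro r
    by_contra h1
    exact hcon ⟨r, fun i hi => h1 ⟨i, hi⟩⟩
  have h1 : (Finset.univ : Finset (degreeLT K P.natDegree)).image
      (fun u : degreeLT K P.natDegree => (u : K[X])) ⊆ Om (fun i => - α i) P := by
    intro y hy
    rw [Finset.mem_image] at hy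
    obtain ⟨u, -, rfl⟩ := hy
    obtain ⟨i, hi⟩ := h0 (u : K[X])
    unfold Om
    rw [Finset.mem_image]
    refine ⟨i, Finset.mem_univ _, ?_⟩
    have h2 : (u : K[X]) %ₘ P = (u : K[X]) := by
      rw [modByMonic_eq_self_iff hP, degree_eq_natDegree hP.ne_zero]
      exact mem_degreeLT.mp u.2
    rw [← h2]
    symm
    rw [mod_eq_iff hP, sub_neg_eq_add]
    exact hi
  have h2 := Finset.card_le_card h1
  rw [Finset.card_image_of_injective _ Subtype.coe_injective, Finset.card_univ, card_deg] at h2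
  have h3 := Om_card_le (fun i => - α i) P
  omega

lemma mass_le (m n : ℕ) : mass {P : K[X] | P ∈ PU K m} n ≤ m := by
  unfold mass
  have h1 : ({P : K[X] | P ∈ PU K m} ∩ {P : K[X] | P.Monic ∧ Irreducible P ∧ P.natDegree ≤ n}) =
      (((PU K m).filter (fun P => P.natDegree ≤ n) : Finset K[X]) : Set K[X]) := by
    ext P
    rw [Finset.mem_coe, Finset.mem_filter]
    constructor
    · rintro ⟨h1, -, -, h4⟩
      exact ⟨h1, h4⟩
    · rintro ⟨h1, h2⟩
      have h3 := mem_PU.1 h1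
      exact ⟨h1, h3.1, h3.2.1, h2⟩
  rw [h1, finsum_mem_coe_finset]
  refine le_trans ?_ (sum_deg_le (k := K) m)
  refine le_trans (Finset.sum_le_sum_of_subset_of_nonneg (Finset.filter_subset _ _)
    (fun P _ _ => by positivity)) (le_of_eq ?_)
  refine Finset.sum_congr rfl fun P _ => ?_
  unfold wt
  rw [div_eq_mul_inv]

end sums

/-- the asymptotics -/
lemma asym (q k A : ℕ) (c δ : ℝ) (hq : 2 ≤ q) (hc : 0 < c) (hδ : 0 < δ) :
    ∃ κ : ℝ, 0 < κ ∧ ∃ n₀ : ℕ, ∀ n : ℕ, n₀ ≤ n → ∀ m : ℕ, (m : ℝ) ≤ κ * n →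
      2 * ((k + 1 : ℝ) * q) ^ (A * m) * (q : ℝ) ^ (-(c * n)) * (m : ℝ) ^ k ≤ δ := by
  have hq2 : (2 : ℝ) ≤ q := by exact_mod_cast hq
  have hq0 : (0 : ℝ) < q := by linarith
  have hlq : 0 < Real.log q := Real.log_pos (by linarith)
  set Q : ℝ := (k + 1 : ℝ) * q with hQ
  have hk0 : (0 : ℝ) ≤ k := Nat.cast_nonneg _
  have hQ1 : 2 ≤ Q := by rw [hQ]; nlinarith
  have hlQ : 0 < Real.log Q := Real.log_pos (by linarith)
  set κ : ℝ := min 1 (c * Real.log q / (2 * ((A + 1) * Real.log Q))) with hκ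
  have hA0 : (0 : ℝ) < A + 1 := by positivity
  have hκ0 : 0 < κ := by
    rw [hκ]
    apply lt_min one_pos
    positivity
  have hκ2 : κ * ((A + 1) * Real.log Q) ≤ c * Real.log q / 2 := by
    have h1 : κ ≤ c * Real.log q / (2 * ((A + 1) * Real.log Q)) := min_le_right _ _
    rw [le_div_iff₀ (by positivity)] at h1
    linarith
  set r : ℝ := Real.exp (-(c * Real.log q / 2)) with hr
  have hr1 : |r| < 1 := by
    rw [hr, abs_of_pos (Real.exp_pos _), Real.exp_lt_one_iff]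
    have : 0 < c * Real.log q / 2 := by positivity
    linarith
  have ht := tendsto_pow_const_mul_const_pow_of_abs_lt_one k hr1
  have hev := ht.eventually (gt_mem_nhds (show (0 : ℝ) < δ / 2 by linarith))
  rw [Filter.eventually_atTop] at hev
  obtain ⟨n₀, hn₀⟩ := hev
  refine ⟨κ, hκ0, n₀, ?_⟩
  intro n hn m hm
  have h1 := hn₀ n hn
  have hn0 : (0 : ℝ) ≤ n := Nat.cast_nonneg _
  have hm0 : (0 : ℝ) ≤ m := Nat.cast_nonneg _
  have hmn : (m : ℝ) ≤ n := by
    have : κ ≤ 1 := min_le_left _ _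
    nlinarith
  have h2 : Q ^ (A * m) = Real.exp (A * m * Real.log Q) := by
    have h3 : Q ^ (A * m) = Real.exp (Real.log (Q ^ (A * m))) :=
      (Real.exp_log (pow_pos (by linarith) _)).symm
    rw [h3, Real.log_pow]
    push_cast
    rfl
  have h3 : (q : ℝ) ^ (-(c * n)) = Real.exp (-(c * n * Real.log q)) := by
    rw [Real.rpow_def_of_pos hq0]
    congr 1
    ring
  have h4 : Q ^ (A * m) * (q : ℝ) ^ (-(c * n)) ≤ r ^ n := by
    rw [h2, h3, ← Real.exp_add, hr, ← Real.exp_nat_mul, Real.exp_le_exp]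
    have h5 : A * m * Real.log Q ≤ (κ * ((A + 1) * Real.log Q)) * n := by
      have h6 : (m : ℝ) * ((A + 1) * Real.log Q) ≤ κ * n * ((A + 1) * Real.log Q) :=
        mul_le_mul_of_nonneg_right hm (by positivity)
      have h7 : 0 ≤ (m : ℝ) * Real.log Q := by positivity
      nlinarith
    have h6 := mul_le_mul_of_nonneg_right hκ2 hn0
    linarith
  have h5 : (m : ℝ) ^ k ≤ (n : ℝ) ^ k := pow_le_pow_left₀ hm0 hmn k
  have h6 : (0 : ℝ) ≤ r ^ n := by rw [hr]; positivity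
  calc 2 * Q ^ (A * m) * (q : ℝ) ^ (-(c * n)) * (m : ℝ) ^ k
      = 2 * ((Q ^ (A * m) * (q : ℝ) ^ (-(c * n))) * (m : ℝ) ^ k) := by ring
    _ ≤ 2 * (r ^ n * (n : ℝ) ^ k) := by
        apply mul_le_mul_of_nonneg_left _ (by norm_num)
        exact mul_le_mul h4 h5 (by positivity) h6
    _ ≤ δ := by
        have : (n : ℝ) ^ k * r ^ n < δ / 2 := h1
        linarith

/-- the sieve with the constants `A` -/
def SWC (K : Type) [Field K] [Fintype K] (k : ℕ) (ε : ℝ) (A : ℕ) : Prop :=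
    ∀ (L m : ℕ) (Ps : Finset K[X]) (β : K[X] → Fin k → K[X]) (M a₀ : K[X]),
      1 ≤ m → A * m ≤ L →
      (∀ P ∈ Ps, P.Monic ∧ Irreducible P ∧ P.natDegree ≤ m ∧ IsCoprime M P) →
      (∀ P ∈ Ps, ∃ r, ∀ i, ¬ P ∣ r - β P i) →
      (1 - ε) * vf Ps β * (Fintype.card K : ℝ) ^ L ≤ ∑ u : degreeLT K L, ind Ps β (a₀ + M * u) ∧
      ∑ u : degreeLT K L, ind Ps β (a₀ + M * u) ≤ (1 + ε) * vf Ps β * (Fintype.card K : ℝ) ^ L ∧
      ∀ (F : K[X] → ℝ) (B : ℝ), (∀ u, |F u| ≤ 1) → 0 ≤ B →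
        (∀ (D r : K[X]) (L' : ℕ), D.Monic → D ∣ ∏ P ∈ Ps, P → D.natDegree + L' = L →
          D.natDegree ≤ A * m → r.degree < D.degree →
          |∑ᶠ v ∈ {v : K[X] | v.degree < (L' : WithBot ℕ)}, F (r + D * v)| ≤ B) →
        |∑ u : degreeLT K L, ind Ps β (a₀ + M * u) * F u| ≤
          ε * vf Ps β * (Fintype.card K : ℝ) ^ L +
          2 * ((k + 1 : ℝ) * Fintype.card K) ^ (A * m) * B

section block

variable {K : Type} [Field K] [Fintype K] [CharP K 2]

/-- the power saving on a fibre, the conclusion of FIB -/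
def FibC (K : Type) [Field K] [Fintype K] {k : ℕ} (κ c : ℝ) (n : ℕ) (s t : Fin k → K[X])
    (R : Set K[X]) (b E : K[X]) : Prop :=
  ∀ (M : K[X]) (g : Fin k → K[X]) (L : ℕ) (a : K[X]) (χ : AddChar K[X] ℝ),
            M ≠ 0 → E ∣ M → (M.natDegree : ℝ) ≤ 4 * κ * n →
            (∀ P : K[X], P.Monic → Irreducible P → P ∣ M → P ∣ E ∨ ∀ i, ¬ P ∣ b + t i) →
            (∀ i, (g i).Monic ∧ ∀ P : K[X], P.Monic → Irreducible P → P ∣ g i → P ∈ R) →
            (a ^ 2 + X * b ^ 2).Monic → (a ^ 2 + X * b ^ 2).natDegree = n →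
            (1 - 3 * κ) * n ≤ 2 * ((M.natDegree : ℝ) + L) →
            2 * ((M.natDegree : ℝ) + L) ≤ (1 - κ) * n →
            |∑ᶠ u ∈ {u : K[X] | u.degree < (L : WithBot ℕ)}, χ u * ∏ i,
              (mobg (g i) ((a + s i + M * u) ^ 2 + X * (b + t i) ^ 2) : ℝ)| ≤
                (Fintype.card K : ℝ) ^ ((L : ℝ) - c * n)

omit [Fintype K] [CharP K 2] in
lemma mobg_one (f : K[X]) : mobg 1 f = mob f := by
  unfold mobg
  rw [one_pow, if_pos (one_dvd f), EuclideanDomain.div_one]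

omit [CharP K 2] in
lemma abs_prod_mob {k : ℕ} (f : Fin k → K[X]) : |∏ i, (mob (f i) : ℝ)| ≤ 1 := by
  rw [Finset.abs_prod]
  exact Finset.prod_le_one (fun i _ => abs_nonneg _) (fun i _ => abs_mob _)

/-- the bound for a typical fibre -/
theorem fibre {k k' A : ℕ} {ε : ℝ} (hε : 0 < ε) (hε8 : ε ≤ 1 / 8) (hA : SWC K k ε A)
    (n m : ℕ) (hm : 1 ≤ m) (s t : Fin k → K[X]) (e : Fin k' → Fin k) (κ c : ℝ)
    (hκ8 : κ ≤ 1 / 8)
    (hadm : ∀ P ∈ PU K m, ∃ r, ∀ i, ¬ P ∣ r - G (s i) (t i))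
    (v' : K[X]) (hv' : v' ∈ degreeLT K (n / 2)) (b : K[X]) (hb : b = tb K n + v')
    (E : K[X]) (hE : E.Monic) (hEd : (E.natDegree : ℝ) ≤ κ * n)
    (hEP : ∀ P ∈ PU K m, (∃ j : Fin k', P ∣ b + t (e j)) → P ∣ E)
    (hfib : FibC K κ c n (s ∘ e) (t ∘ e) {P : K[X] | P ∈ PU K m} b E)
    (hAm : (A * m : ℝ) ≤ κ * n) (hκn : 1 ≤ κ * n)
    (hsmall : 2 * ((k + 1 : ℝ) * Fintype.card K) ^ (A * m) * (Fintype.card K : ℝ) ^ (-(c * n)) ≤
      ε * vf (PU K m) (fun _ i => G (s i) (t i))) :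
    |∑ v : degreeLT K ((n + 1) / 2),
        ind (PU K m) (fun _ i => G (s i) (t i)) (G (ta K n + (v : K[X])) b) *
        ∏ j, (mob (G (ta K n + (v : K[X])) b + G (s (e j)) (t (e j))) : ℝ)| ≤
      4 * ε * ∑ v : degreeLT K ((n + 1) / 2),
        ind (PU K m) (fun _ i => G (s i) (t i)) (G (ta K n + (v : K[X])) b) := by
  have hq1 : (1 : ℝ) < Fintype.card K := by exact_mod_cast Fintype.one_lt_card
  have hq0 : (0 : ℝ) < Fintype.card K := by linarith
  have hn0 : (0 : ℝ) ≤ n := Nat.cast_nonneg _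
  have hn8 : (8 : ℝ) ≤ n := by nlinarith
  obtain ⟨N1, hN1⟩ : ∃ N1, N1 = ⌊(1 - κ) * n / 2⌋₊ := ⟨_, rfl⟩
  have hx0 : 0 ≤ (1 - κ) * n / 2 := by
    have : 0 ≤ (1 - κ) * n := mul_nonneg (by linarith) hn0
    linarith
  have hN1a : (N1 : ℝ) ≤ (1 - κ) * n / 2 := by rw [hN1]; exact Nat.floor_le hx0
  have hN1b : (1 - κ) * n / 2 < N1 + 1 := by rw [hN1]; exact Nat.lt_floor_add_one _
  have hκn8 : κ * n ≤ n / 8 := by nlinarith
  have hEN : E.natDegree + A * m ≤ N1 := by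
    have h1 : ((E.natDegree + A * m : ℕ) : ℝ) ≤ N1 := by
      push_cast
      nlinarith
    exact_mod_cast h1
  obtain ⟨L, hL⟩ : ∃ L, L = N1 - E.natDegree := ⟨_, rfl⟩
  have hEL : E.natDegree + L = N1 := by omega
  have hAL : A * m ≤ L := by omega
  have hN1N : N1 ≤ (n + 1) / 2 := by
    have h1 : 2 * (N1 : ℝ) ≤ n := by nlinarith
    have h2 : 2 * N1 ≤ n := by exact_mod_cast h1
    omega
  have hE0 : E ≠ 0 := hE.ne_zero
  have hEm : ∀ u ∈ degreeLT K L, E * u ∈ degreeLT K ((n + 1) / 2) := by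
    intro u hu
    apply mem_of_natDegree_lt
    by_cases hu0 : u = 0
    · left
      rw [hu0, mul_zero]
    · right
      have h1 := natDegree_lt_of_mem hu hu0
      rw [natDegree_mul hE0 hu0]
      omega
  have hPU : ∀ P ∈ PU K m, P.Monic ∧ Irreducible P := fun P hP =>
    ⟨(mem_PU.1 hP).1, (mem_PU.1 hP).2.1⟩
  apply avg2 ((n + 1) / 2) L E hEm
    (fun x => ind (PU K m) (fun _ i => G (s i) (t i)) (G (ta K n + x) b) *
        ∏ j, (mob (G (ta K n + x) b + G (s (e j)) (t (e j))) : ℝ))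
    (fun x => ind (PU K m) (fun _ i => G (s i) (t i)) (G (ta K n + x) b))
  intro v hv
  obtain ⟨a, ha⟩ : ∃ a, a = ta K n + v := ⟨_, rfl⟩
  have hcomb : ∀ u : K[X], ta K n + (v + E * u) = a + E * u := by
    intro u
    rw [ha, add_assoc]
  simp only [hcomb, ind_bet s t (PU K m) hPU]
  by_cases hbad : ∃ P ∈ PU K m, P ∣ E ∧ ∃ i, P ∣ a - bet s t b P i
  · obtain ⟨P, hP, hPE, i, hi⟩ := hbad
    have h0 : ∀ u : K[X], ind (PU K m) (bet s t b) (a + E * u) = 0 := by
      intro u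
      unfold ind
      rw [if_neg]
      intro h
      apply h P hP i
      have h1 : a + E * u - bet s t b P i = (a - bet s t b P i) + E * u := by ring
      rw [h1]
      exact dvd_add hi (Dvd.dvd.mul_right hPE u)
    have h1 : ∑ u : degreeLT K L, ind (PU K m) (bet s t b) (a + E * (u : K[X])) = 0 :=
      Finset.sum_eq_zero fun u _ => h0 _
    have h2 : ∑ u : degreeLT K L, ind (PU K m) (bet s t b) (a + E * (u : K[X])) *
        ∏ j, (mob (G (a + E * (u : K[X])) b + G (s (e j)) (t (e j))) : ℝ) = 0 :=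
      Finset.sum_eq_zero fun u _ => by rw [h0, zero_mul]
    rw [h1, h2, abs_zero, mul_zero]
  · obtain ⟨Ps, hPs⟩ : ∃ Ps, Ps = (PU K m).filter (fun P => ¬ P ∣ E) := ⟨_, rfl⟩
    have hPsub : Ps ⊆ PU K m := by rw [hPs]; exact Finset.filter_subset _ _
    have h0 : ∀ u : K[X], ind (PU K m) (bet s t b) (a + E * u) = ind Ps (bet s t b) (a + E * u) := by
      intro u
      unfold ind
      by_cases h1 : Sd Ps (bet s t b) (a + E * u)
      · rw [if_pos h1, if_pos]
        intro P hP i hi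
        by_cases hPE : P ∣ E
        · apply hbad
          refine ⟨P, hP, hPE, i, ?_⟩
          have h2 : a + E * u - bet s t b P i = (a - bet s t b P i) + E * u := by ring
          rw [h2] at hi
          exact (dvd_add_left (Dvd.dvd.mul_right hPE u)).1 hi
        · exact h1 P (by rw [hPs, Finset.mem_filter]; exact ⟨hP, hPE⟩) i hi
      · rw [if_neg h1, if_neg]
        intro h2
        exact h1 fun P hP i => h2 P (hPsub hP) i
    simp only [h0]
    have hmon : ∀ P ∈ Ps, P.Monic := fun P hP => (hPU P (hPsub hP)).1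
    have hadm2 : ∀ P ∈ Ps, ∃ r, ∀ i, ¬ P ∣ r - bet s t b P i := fun P hP =>
      adm_bet s t (hPU P (hPsub hP)).2 b (hadm P (hPsub hP))
    obtain ⟨h1, -, h3⟩ := hA L m Ps (bet s t b) E a hm hAL (by
      intro P hP
      have hP1 := mem_PU.1 (hPsub hP)
      refine ⟨hP1.1, hP1.2.1, hP1.2.2, ?_⟩
      have h2 : ¬ P ∣ E := by
        rw [hPs, Finset.mem_filter] at hP
        exact hP.2
      exact ((hP1.2.1.coprime_iff_not_dvd).2 h2).symm) hadm2
    have hV : vf (PU K m) (fun _ i => G (s i) (t i)) ≤ vf Ps (bet s t b) := by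
      rw [← vf_bet s t (PU K m) hPU b]
      exact vf_mono (PU K m) Ps (bet s t b) hPsub (fun P hP => (hPU P hP).1)
        (fun P hP => adm_bet s t (hPU P hP).2 b (hadm P hP))
    have hV0 : 0 < vf Ps (bet s t b) := vf_pos Ps _ hmon hadm2
    have hqL : (0 : ℝ) < (Fintype.card K : ℝ) ^ L := pow_pos hq0 _
    have h4 := h3 (fun u => ∏ j, (mob (G (a + E * u) b + G (s (e j)) (t (e j))) : ℝ))
      ((Fintype.card K : ℝ) ^ ((L : ℝ) - c * n)) (fun u => abs_prod_mob _)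
      (Real.rpow_nonneg hq0.le _) (by
        intro D r L' hD hDdvd hDL hDA hr
        have hD0 : D ≠ 0 := hD.ne_zero
        have hEDd : (E * D).natDegree = E.natDegree + D.natDegree := natDegree_mul hE0 hD0
        have hErm : E * r ∈ degreeLT K ((n + 1) / 2) := by
          apply hEm
          rw [mem_degreeLT]
          refine lt_of_lt_of_le hr ?_
          rw [degree_eq_natDegree hD0]
          exact_mod_cast (by omega : D.natDegree ≤ L)
        have hmem := G_mem n (v + E * r) v' (add_mem hv hErm) hv'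
        rw [← add_assoc, ← ha, ← hb] at hmem
        have h5 := hfib (E * D) (fun _ => 1) L' (a + E * r) 1 (mul_ne_zero hE0 hD0)
          (dvd_mul_right _ _) (by
            rw [hEDd]
            have h6 : (D.natDegree : ℝ) ≤ A * m := by exact_mod_cast hDA
            push_cast
            nlinarith) (by
            intro P hP1 hP2 hP3
            rcases hP2.prime.dvd_or_dvd hP3 with h6 | h6
            · exact Or.inl h6
            · -- `P` is one of the primes in `Ps`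
              have h7 : P ∣ ∏ P ∈ Ps, P := h6.trans hDdvd
              obtain ⟨P', hP', h8⟩ := (hP2.prime.dvd_finsetProd_iff _).1 h7
              have h9 : P = P' := eq_of_monic_of_associated hP1 (hmon P' hP')
                (hP2.associated_of_dvd (hPU P' (hPsub hP')).2 h8)
              right
              intro i hi
              rw [h9] at hi
              have h10 := hEP P' (hPsub hP') ⟨i, hi⟩
              rw [hPs, Finset.mem_filter] at hP'
              exact hP'.2 h10) (by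
            intro i
            refine ⟨monic_one, ?_⟩
            intro P hP1 hP2 hP3
            exact absurd (isUnit_of_dvd_one hP3) hP2.not_isUnit) hmem.1 hmem.2 (by
            have h6 : ((E * D).natDegree : ℝ) + L' = N1 := by
              rw [hEDd]
              exact_mod_cast (by omega : E.natDegree + D.natDegree + L' = N1)
            rw [h6]
            nlinarith) (by
            have h6 : ((E * D).natDegree : ℝ) + L' = N1 := by
              rw [hEDd]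
              exact_mod_cast (by omega : E.natDegree + D.natDegree + L' = N1)
            rw [h6]
            linarith)
        refine le_trans (le_of_eq ?_) (h5.trans ?_)
        · congr 1
          refine finsum_mem_congr rfl fun w _ => ?_
          rw [AddChar.one_apply, one_mul]
          refine Finset.prod_congr rfl fun j _ => ?_
          rw [mobg_one]
          have h6 : G (a + E * (r + D * w)) b + G (s (e j)) (t (e j)) =
              (a + E * r + (s ∘ e) j + E * D * w) ^ 2 + X * (b + (t ∘ e) j) ^ 2 := by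
            rw [← G_add, G, Function.comp, Function.comp]
            ring
          rw [h6]
        · apply Real.rpow_le_rpow_of_exponent_le hq1.le
          have h6 : (L' : ℝ) ≤ L := by exact_mod_cast (by omega : L' ≤ L)
          linarith)
    have h5 : 2 * ((k + 1 : ℝ) * Fintype.card K) ^ (A * m) *
        (Fintype.card K : ℝ) ^ ((L : ℝ) - c * n) ≤
        ε * vf Ps (bet s t b) * (Fintype.card K : ℝ) ^ L := by
      have h6 : (Fintype.card K : ℝ) ^ ((L : ℝ) - c * n) =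
          (Fintype.card K : ℝ) ^ (-(c * n)) * (Fintype.card K : ℝ) ^ L := by
        rw [sub_eq_neg_add, Real.rpow_add hq0, Real.rpow_natCast]
      rw [h6, ← mul_assoc]
      apply mul_le_mul_of_nonneg_right _ hqL.le
      exact hsmall.trans (mul_le_mul_of_nonneg_left hV hε.le)
    obtain ⟨Sg, hSg⟩ : ∃ Sg, Sg = ∑ u : degreeLT K L, ind Ps (bet s t b) (a + E * (u : K[X])) :=
      ⟨_, rfl⟩
    rw [← hSg] at h1 ⊢
    obtain ⟨W, hW⟩ : ∃ W, W = vf Ps (bet s t b) * (Fintype.card K : ℝ) ^ L := ⟨_, rfl⟩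
    have hW0 : 0 < W := by rw [hW]; positivity
    rw [mul_assoc, ← hW] at h1
    rw [mul_assoc ε, ← hW] at h4 h5
    refine h4.trans ?_
    have h6 : W ≤ 2 * Sg := by nlinarith
    nlinarith

end block

section main

variable {K : Type} [Field K] [Fintype K] [CharP K 2]

lemma Fb_sub (n : ℕ) (b : K[X]) (hb : b ∈ Fb K n) :
    ∃ v' : degreeLT K (n / 2), tb K n + (v' : K[X]) = b := by
  obtain ⟨a, h1, h2⟩ := hb
  obtain ⟨v, -, v', hv', h⟩ := mem_G n (G a b) ⟨h1, h2⟩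
  exact ⟨⟨v', hv'⟩, (G_inj h).2⟩

lemma Fb_finite (n : ℕ) : (Fb K n).Finite := by
  refine (Set.finite_range (fun v' : degreeLT K (n / 2) => tb K n + (v' : K[X]))).subset ?_
  intro b hb
  exact Fb_sub n b hb

lemma mem_Fb (n : ℕ) (v' : degreeLT K (n / 2)) : tb K n + (v' : K[X]) ∈ Fb K n := by
  have h := G_mem n 0 (v' : K[X]) (zero_mem _) v'.2
  exact ⟨ta K n + 0, h.1, h.2⟩

omit [CharP K 2] in
lemma card_exc (n : ℕ) (Exc : Set K[X]) (hf : Exc.Finite) :
    ((Finset.univ : Finset (degreeLT K (n / 2))).filter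
      (fun v' : degreeLT K (n / 2) => tb K n + (v' : K[X]) ∈ Exc)).card ≤ Exc.ncard := by
  rw [← Finset.card_image_of_injective _ (f := fun v' : degreeLT K (n / 2) => tb K n + (v' : K[X]))
    (fun v v' hv => Subtype.ext (add_left_cancel hv)), ← Set.ncard_coe_finset]
  apply Set.ncard_le_ncard _ hf
  intro b hb
  rw [Finset.mem_coe, Finset.mem_image] at hb
  obtain ⟨v', hv', rfl⟩ := hb
  rw [Finset.mem_filter] at hv'
  exact hv'.2

end main

/-- the bound for one set `S` -/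
theorem par1 (hf : S_fib) (hs : S_sw) (hl : S_low) (K : Type) [Field K] [Fintype K] [CharP K 2]
    (k : ℕ) (ε : ℝ) (hε : 0 < ε) (S : Finset (Fin k)) (hS : S.Nonempty) :
    ∃ κ : ℝ, 0 < κ ∧ ∃ m₀ n₀ : ℕ, ∀ n : ℕ, n₀ ≤ n → ∀ m : ℕ, m₀ ≤ m → (m : ℝ) ≤ κ * n →
      ∀ α : Fin k → K[X], Function.Injective α → (∀ i, (α i).natDegree < n) →
        |∑ f ∈ Sfs K α n m, ∏ i ∈ S, (mob (f + α i) : ℝ)| ≤ ε * (Sfs K α n m).card := by
  have hq1 : (1 : ℝ) < Fintype.card K := by exact_mod_cast Fintype.one_lt_card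
  have hq0 : (0 : ℝ) < Fintype.card K := by linarith
  have hq2 : 2 ≤ Fintype.card K := Fintype.one_lt_card
  obtain ⟨k', hk'⟩ : ∃ k', k' = S.card := ⟨_, rfl⟩
  have hk'1 : 1 ≤ k' := by rw [hk']; exact Finset.card_pos.2 hS
  obtain ⟨e, he, hprod⟩ : ∃ e : Fin k' → Fin k, Function.Injective e ∧
      ∀ h : Fin k → ℝ, ∏ i ∈ S, h i = ∏ j, h (e j) := by
    subst hk'
    refine ⟨fun j => (S.equivFin.symm j : Fin k), fun j j' h =>
      S.equivFin.symm.injective (Subtype.ext h), ?_⟩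
    intro h
    rw [← Finset.prod_coe_sort S h, ← Equiv.prod_comp S.equivFin.symm]
  obtain ⟨ε₁, hε₁⟩ : ∃ ε₁ : ℝ, ε₁ = min ε 1 / 8 := ⟨_, rfl⟩
  have hε₁0 : 0 < ε₁ := by
    rw [hε₁]
    have : 0 < min ε 1 := lt_min hε one_pos
    linarith
  have hε₁8 : ε₁ ≤ 1 / 8 := by
    rw [hε₁]
    have : min ε 1 ≤ 1 := min_le_right _ _
    linarith
  have hε₁ε : 8 * ε₁ ≤ ε := by
    rw [hε₁]
    have : min ε 1 ≤ ε := min_le_left _ _
    linarith
  obtain ⟨A, hA⟩ := sw1 hs K k ε₁ hε₁0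
  have hAC : SWC K k ε₁ A := hA
  obtain ⟨κ, θ, c, hκ, hκ8, hθ, hc, n₁, hfib⟩ := hf K k' (ε / 4) hk'1 (by linarith)
  obtain ⟨c', hc', A', hlow⟩ := hl K k
  obtain ⟨δ, hδ⟩ : ∃ δ : ℝ, δ = ε₁ * c' / (1 + ε₁) := ⟨_, rfl⟩
  have hδ0 : 0 < δ := by rw [hδ]; positivity
  obtain ⟨κ₀, hκ₀, n₂, has⟩ := asym (Fintype.card K) k A c δ hq2 hc hδ0
  have hA1 : (0 : ℝ) < A + 1 := by positivity
  have hA2 : (0 : ℝ) < A' + 1 := by positivity
  obtain ⟨κf, hκf⟩ : ∃ κf : ℝ, κf = min (min κ₀ θ) (min (κ / (A + 1)) (1 / (A' + 1))) := ⟨_, rfl⟩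
  have hκf0 : 0 < κf := by
    rw [hκf]
    exact lt_min (lt_min hκ₀ hθ) (lt_min (by positivity) (by positivity))
  have hκf1 : κf ≤ κ₀ := by rw [hκf]; exact (min_le_left _ _).trans (min_le_left _ _)
  have hκf2 : κf ≤ θ := by rw [hκf]; exact (min_le_left _ _).trans (min_le_right _ _)
  have hκf3 : κf * (A + 1) ≤ κ := by
    rw [← le_div_iff₀ hA1, hκf]
    exact (min_le_right _ _).trans (min_le_left _ _)
  have hκf4 : κf * (A' + 1) ≤ 1 := by
    rw [← le_div_iff₀ hA2, hκf]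
    exact (min_le_right _ _).trans (min_le_right _ _)
  refine ⟨κf, hκf0, k + 1, n₁ + n₂ + ⌈1 / κ⌉₊, ?_⟩
  intro n hn m hm hmn α hα hαd
  have hn0 : (0 : ℝ) ≤ n := Nat.cast_nonneg _
  have hm0 : (0 : ℝ) ≤ m := Nat.cast_nonneg _
  have hm1 : 1 ≤ m := by omega
  have hκn : 1 ≤ κ * n := by
    have h1 : (1 / κ : ℝ) ≤ n := by
      refine (Nat.le_ceil _).trans ?_
      exact_mod_cast (by omega : ⌈1 / κ⌉₊ ≤ n)
    rw [div_le_iff₀ hκ] at h1
    linarith
  have hmκ₀ : (m : ℝ) ≤ κ₀ * n := hmn.trans (mul_le_mul_of_nonneg_right hκf1 hn0)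
  have hmθ : (m : ℝ) ≤ θ * n := hmn.trans (mul_le_mul_of_nonneg_right hκf2 hn0)
  have hAm : (A * m : ℝ) ≤ κ * n := by
    have h1 : (A + 1 : ℝ) * m ≤ (A + 1) * (κf * n) := mul_le_mul_of_nonneg_left hmn hA1.le
    have h2 : κf * (A + 1) * n ≤ κ * n := mul_le_mul_of_nonneg_right hκf3 hn0
    nlinarith
  have hA'm : A' * m ≤ n := by
    have h1 : (A' + 1 : ℝ) * m ≤ (A' + 1) * (κf * n) := mul_le_mul_of_nonneg_left hmn hA2.le
    have h2 : κf * (A' + 1) * n ≤ 1 * n := mul_le_mul_of_nonneg_right hκf4 hn0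
    have h3 : ((A' * m : ℕ) : ℝ) ≤ n := by
      push_cast
      nlinarith
    exact_mod_cast h3
  have hAn : A * m ≤ n := by
    have h3 : ((A * m : ℕ) : ℝ) ≤ n := by
      push_cast
      nlinarith
    exact_mod_cast h3
  rcases (Sfs K α n m).eq_empty_or_nonempty with hemp | hne
  · rw [hemp]
    simp
  choose s t hst using fun i => G_surj (α i)
  have hα' : α = fun i => G (s i) (t i) := funext fun i => (hst i).symm
  -- admissible
  have hadm : ∀ P ∈ PU K m, ∃ r, ∀ i, ¬ P ∣ r - G (s i) (t i) := by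
    intro P hP
    obtain ⟨f, hf⟩ := hne
    unfold Sfs at hf
    rw [Finset.mem_filter, Sft_iff] at hf
    refine ⟨f, fun i hi => hf.2 P hP i ?_⟩
    show P ∣ f - α i
    rw [← hst i]
    exact hi
  have hadm2 : ∀ P : K[X], P.Monic → Irreducible P → ∃ r : K[X], ∀ i, ¬ P ∣ r + α i := by
    intro P hP1 hP2
    by_cases hPm : P.natDegree ≤ m
    · obtain ⟨r, hr⟩ := hadm P (mem_PU.2 ⟨hP1, hP2, hPm⟩)
      refine ⟨r, fun i hi => hr i ?_⟩
      rw [CharTwo.sub_eq_add, hst i]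
      exact hi
    · apply adm_big α hP1
      have h1 : P.natDegree < 2 ^ P.natDegree := Nat.lt_two_pow_self
      have h2 : 2 ^ P.natDegree ≤ Fintype.card K ^ P.natDegree := Nat.pow_le_pow_left hq2 _
      omega
  have hPU : ∀ P ∈ PU K m, P.Monic ∧ Irreducible P := fun P hP =>
    ⟨(mem_PU.1 hP).1, (mem_PU.1 hP).2.1⟩
  have hPU2 : ∀ P ∈ PU K m, P.Monic ∧ Irreducible P ∧ P.natDegree ≤ m ∧ IsCoprime (1 : K[X]) P :=
    fun P hP => ⟨(mem_PU.1 hP).1, (mem_PU.1 hP).2.1, (mem_PU.1 hP).2.2, isCoprime_one_left⟩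
  obtain ⟨V, hV⟩ : ∃ V, V = vf (PU K m) (fun _ i => G (s i) (t i)) := ⟨_, rfl⟩
  have hV0 : 0 < V := by
    rw [hV]
    exact vf_pos _ _ (fun P hP => (hPU P hP).1) hadm
  obtain ⟨Z, hZ⟩ : ∃ Z : ℝ, Z = (Sfs K α n m).card := ⟨_, rfl⟩
  have hZ0 : 0 ≤ Z := by rw [hZ]; exact Nat.cast_nonneg _
  -- the global sieve
  have hglob := hA n m (PU K m) (fun _ i => G (s i) (t i)) 1 (X ^ n) hm1 hAn hPU2 hadm
  have hZ1 : Z = ∑ u : degreeLT K n, ind (PU K m) (fun _ i => G (s i) (t i))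
      (X ^ n + 1 * (u : K[X])) := by
    rw [hZ, card_Sfs, sum_Mn', hα']
  have hZlo : (1 - ε₁) * V * (Fintype.card K : ℝ) ^ n ≤ Z := by rw [hZ1, hV]; exact hglob.1
  have hZhi : Z ≤ (1 + ε₁) * V * (Fintype.card K : ℝ) ^ n := by rw [hZ1, hV]; exact hglob.2.1
  have hlow1 : c' * (Fintype.card K : ℝ) ^ n / (m : ℝ) ^ k ≤ Z := by
    rw [hZ]
    exact (hlow n m hm1 hA'm α hα hαd hadm2).1
  have hqn : (0 : ℝ) < (Fintype.card K : ℝ) ^ n := pow_pos hq0 _
  have hmk : (0 : ℝ) < (m : ℝ) ^ k := by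
    have : (0 : ℝ) < m := by exact_mod_cast hm1
    positivity
  have hVlow : δ ≤ ε₁ * V * (m : ℝ) ^ k := by
    have h1 : c' * (Fintype.card K : ℝ) ^ n / (m : ℝ) ^ k ≤
        (1 + ε₁) * V * (Fintype.card K : ℝ) ^ n := hlow1.trans hZhi
    rw [div_le_iff₀ hmk] at h1
    have h2 : c' * (Fintype.card K : ℝ) ^ n ≤
        ((1 + ε₁) * V * (m : ℝ) ^ k) * (Fintype.card K : ℝ) ^ n := by linarith
    have h3 := le_of_mul_le_mul_right h2 hqn
    rw [hδ, div_le_iff₀ (by linarith)]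
    nlinarith
  have hsmall : 2 * ((k + 1 : ℝ) * Fintype.card K) ^ (A * m) *
      (Fintype.card K : ℝ) ^ (-(c * n)) ≤ ε₁ * vf (PU K m) (fun _ i => G (s i) (t i)) := by
    rw [← hV]
    have h1 := (has n (by omega) m hmκ₀).trans hVlow
    exact le_of_mul_le_mul_right h1 hmk
  -- the fibres
  obtain ⟨Exc, hExc, hExcn, hgood⟩ := hfib n (by omega) (s ∘ e) (t ∘ e) {P : K[X] | P ∈ PU K m}
    (by
      intro j j' h
      apply he
      apply hα
      rw [← hst, ← hst]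
      have h1 := Prod.ext_iff.1 h
      show G (s (e j)) (t (e j)) = G (s (e j')) (t (e j'))
      have h2 : s (e j) = s (e j') := h1.1
      have h3 : t (e j) = t (e j') := h1.2
      rw [h2, h3])
    (by
      intro j
      have h1 := hαd (e j)
      rw [← hst] at h1
      exact h1)
    ((mass_le m n).trans hmθ)
  obtain ⟨T, hT⟩ : ∃ T : degreeLT K (n / 2) → ℝ, T = fun v' : degreeLT K (n / 2) =>
      ∑ v : degreeLT K ((n + 1) / 2),
      ind (PU K m) (fun _ i => G (s i) (t i)) (G (ta K n + (v : K[X])) (tb K n + (v' : K[X]))) *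
        ∏ j, (mob (G (ta K n + (v : K[X])) (tb K n + (v' : K[X])) + G (s (e j)) (t (e j))) : ℝ) :=
    ⟨_, rfl⟩
  obtain ⟨U, hU⟩ : ∃ U : degreeLT K (n / 2) → ℝ, U = fun v' : degreeLT K (n / 2) =>
      ∑ v : degreeLT K ((n + 1) / 2),
      ind (PU K m) (fun _ i => G (s i) (t i)) (G (ta K n + (v : K[X])) (tb K n + (v' : K[X]))) :=
    ⟨_, rfl⟩
  have hZU : Z = ∑ v', U v' := by
    rw [hZ, card_Sfs, sum_Mn, sum_MD, hU, hα']
  have hsumT : ∑ f ∈ Sfs K α n m, ∏ i ∈ S, (mob (f + α i) : ℝ) = ∑ v', T v' := by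
    rw [sum_Sfs, sum_Mn, sum_MD, hT]
    refine Finset.sum_congr rfl fun v' _ => Finset.sum_congr rfl fun v _ => ?_
    rw [hprod, hα']
  have hTU : ∀ v', |T v'| ≤ U v' := by
    intro v'
    rw [hT, hU]
    refine (Finset.abs_sum_le_sum_abs _ _).trans (Finset.sum_le_sum fun v _ => ?_)
    rw [abs_mul, abs_of_nonneg (ind_nonneg _ _ _)]
    exact mul_le_of_le_one_right (ind_nonneg _ _ _) (abs_prod_mob _)
  obtain ⟨N, hN⟩ : ∃ N, N = (n + 1) / 2 := ⟨_, rfl⟩
  have hUle : ∀ v', U v' ≤ (1 + ε₁) * V * (Fintype.card K : ℝ) ^ N := by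
    intro v'
    have hAN : A * m ≤ N := by
      have h3 : ((A * m : ℕ) : ℝ) ≤ κ * n := by
        push_cast
        exact hAm
      have h4 : (8 : ℝ) * ((A * m : ℕ) : ℝ) ≤ n := by nlinarith
      have h5 : 8 * (A * m) ≤ n := by exact_mod_cast h4
      omega
    have h1 := (hA N m (PU K m) (bet s t (tb K n + (v' : K[X]))) 1 (ta K n) hm1 hAN hPU2
      (fun P hP => adm_bet s t (hPU P hP).2 _ (hadm P hP))).2.1
    rw [vf_bet s t (PU K m) hPU, ← hV] at h1
    rw [hU, hN]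
    rw [hN] at h1
    refine le_trans (le_of_eq ?_) h1
    refine Finset.sum_congr rfl fun v _ => ?_
    rw [one_mul, ind_bet s t (PU K m) hPU]
  have hTgood : ∀ v' : degreeLT K (n / 2), tb K n + (v' : K[X]) ∉ Exc → |T v'| ≤ 4 * ε₁ * U v' := by
    intro v' hv'
    obtain ⟨E, hE, hEd, hEP, hEfib⟩ := hgood (tb K n + (v' : K[X])) (mem_Fb n v') hv'
    rw [hT, hU]
    exact fibre hε₁0 hε₁8 hAC n m hm1 s t e κ c hκ8 hadm (v' : K[X]) v'.2 _ rfl E hE hEd
      (fun P hP hj => hEP P hP (hPU P hP).1 (hPU P hP).2 hj) hEfib hAm hκn hsmall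
  have hqN : (0 : ℝ) < (Fintype.card K : ℝ) ^ N := pow_pos hq0 _
  have hall : ∀ v' : degreeLT K (n / 2), |T v'| ≤ 4 * ε₁ * U v' +
      (if tb K n + (v' : K[X]) ∈ Exc then (1 + ε₁) * V * (Fintype.card K : ℝ) ^ N else 0) := by
    intro v'
    have hU0 : 0 ≤ U v' := (abs_nonneg _).trans (hTU v')
    split_ifs with h
    · have h1 := (hTU v').trans (hUle v')
      have h2 : 0 ≤ 4 * ε₁ * U v' := by positivity
      linarith
    · rw [add_zero]
      exact hTgood v' h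
  rw [hsumT, ← hZ]
  refine (Finset.abs_sum_le_sum_abs _ _).trans ?_
  refine (Finset.sum_le_sum (fun v' _ => hall v')).trans ?_
  rw [Finset.sum_add_distrib, ← Finset.mul_sum, ← hZU, ← Finset.sum_filter, Finset.sum_const,
    nsmul_eq_mul]
  have hcard : (((Finset.univ : Finset (degreeLT K (n / 2))).filter
      (fun v' : degreeLT K (n / 2) => tb K n + (v' : K[X]) ∈ Exc)).card : ℝ) ≤
      ε / 4 * (Fintype.card K : ℝ) ^ (n / 2) := by
    refine le_trans ?_ hExcn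
    exact_mod_cast card_exc n Exc ((Fb_finite n).subset hExc)
  have hnn : (Fintype.card K : ℝ) ^ n = (Fintype.card K : ℝ) ^ (n / 2) * (Fintype.card K : ℝ) ^ N := by
    rw [← pow_add]
    congr 1
    omega
  have h1 : (((Finset.univ : Finset (degreeLT K (n / 2))).filter
      (fun v' : degreeLT K (n / 2) => tb K n + (v' : K[X]) ∈ Exc)).card : ℝ) *
      ((1 + ε₁) * V * (Fintype.card K : ℝ) ^ N) ≤
      ε / 4 * (Fintype.card K : ℝ) ^ (n / 2) * ((1 + ε₁) * V * (Fintype.card K : ℝ) ^ N) :=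
    mul_le_mul_of_nonneg_right hcard (by positivity)
  have h2 : ε / 4 * (Fintype.card K : ℝ) ^ (n / 2) * ((1 + ε₁) * V * (Fintype.card K : ℝ) ^ N) =
      ε / 4 * ((1 + ε₁) * (V * (Fintype.card K : ℝ) ^ n)) := by
    rw [hnn]
    ring
  obtain ⟨W, hW⟩ : ∃ W, W = V * (Fintype.card K : ℝ) ^ n := ⟨_, rfl⟩
  have hW0 : 0 < W := by rw [hW]; positivity
  rw [mul_assoc, ← hW] at hZlo
  rw [h2, ← hW] at h1
  have h3 : (1 + ε₁) * W ≤ 2 * Z := by nlinarith
  have h4 : ε / 4 * ((1 + ε₁) * W) ≤ ε / 4 * (2 * Z) := mul_le_mul_of_nonneg_left h3 (by linarith)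
  have h5 : 4 * ε₁ * Z ≤ ε / 2 * Z := mul_le_mul_of_nonneg_right (by linarith) hZ0
  linarith

/-- **Task PAR.** -/
theorem par (hf : S_fib) (hs : S_sw) (hl : S_low) : S_par := by
  intro K _ _ _ k ε hε
  have h := fun S : {S : Finset (Fin k) // S.Nonempty} => par1 hf hs hl K k ε hε S.1 S.2
  choose κ hκ m₀ n₀ hpar using h
  obtain ⟨κ', hκ'0, hκ'⟩ : ∃ κ' : ℝ, 0 < κ' ∧ ∀ S, κ' ≤ κ S := by
    rcases isEmpty_or_nonempty {S : Finset (Fin k) // S.Nonempty} with hemp | hne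
    · exact ⟨1, one_pos, fun S => (hemp.false S).elim⟩
    · obtain ⟨S₀, hS₀⟩ := Finite.exists_min κ
      exact ⟨κ S₀, hκ S₀, hS₀⟩
  refine ⟨κ', hκ'0, ∑ S, m₀ S, ∑ S, n₀ S, ?_⟩
  intro n hn m hm hmn α hα hαd S hS
  have h1 : m₀ ⟨S, hS⟩ ≤ ∑ S, m₀ S :=
    Finset.single_le_sum (f := m₀) (fun _ _ => Nat.zero_le _) (Finset.mem_univ _)
  have h2 : n₀ ⟨S, hS⟩ ≤ ∑ S, n₀ S :=
    Finset.single_le_sum (f := n₀) (fun _ _ => Nat.zero_le _) (Finset.mem_univ _)
  exact hpar ⟨S, hS⟩ n (h2.trans hn) m (h1.trans hm)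
    (hmn.trans (mul_le_mul_of_nonneg_right (hκ' _) (Nat.cast_nonneg _))) α hα hαd

end Pool.Agent.H225.Par
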